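import Pool.Agent.Q231.HF.Tree

/-!
# Forests which are not contained in a disjoint union of suns
-/

set_option autoImplicit false

namespace Pool.Agent.Q231.HF

open SimpleGraph

/-- Some vertex has at least four neighbours, or in the component of some vertex `v` no path of
length at most `5` contains all vertices with at least three neighbours. -/
def Spread {V : Type*} (F : SimpleGraph V) : Prop :=
  (∃ v, 4 ≤ (F.neighborSet v).ncard) ∨
  ∃ v, ∀ (a b : V) (p : F.Walk a b), F.Reachable v a → p.IsPath → p.length ≤ 5 →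
    ∃ w, F.Reachable v w ∧ 3 ≤ (F.neighborSet w).ncard ∧ w ∉ p.support

section

variable {V : Type*} {F : SimpleGraph V}

theorem comp_nb (C : F.ConnectedComponent) (w : C) :
    (C.toSimpleGraph.neighborSet w).ncard = (F.neighborSet w.1).ncard := by
  rw [← Set.ncard_image_of_injective (C.toSimpleGraph.neighborSet w)
    (Subtype.val_injective : Function.Injective (Subtype.val : C → V))]
  congr 1
  ext x
  simp only [Set.mem_image, mem_neighborSet]
  constructor
  · rintro ⟨y, hy, rfl⟩
    exact hy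
  · intro hx
    exact ⟨⟨x, C.mem_supp_of_adj_mem_supp w.2 hx⟩, hx, rfl⟩

/-- A component of a graph contained in the suns is contained in one sun. -/
theorem comp_sun (φ : Copy F Suns) (C : F.ConnectedComponent) :
    Nonempty (Copy C.toSimpleGraph (Sun 8)) ∨ Nonempty (Copy C.toSimpleGraph (Sun 4)) := by
  obtain ⟨v, hv⟩ := C.exists_rep
  have hφ : ∀ x y, F.Adj x y → (φ x).1 = (φ y).1 ∧ (Sun 8 ⊕g Sun 4).Adj (φ x).2 (φ y).2 :=
    fun x y hxy => φ.toHom.map_adj hxy
  have hinj : Function.Injective (⇑φ) := φ.injective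
  have hk : ∀ w, F.Reachable v w → (φ w).1 = (φ v).1 ∧ (φ w).2.isLeft = (φ v).2.isLeft := by
    intro w hw
    obtain ⟨p⟩ := hw.symm
    induction p with
    | nil => exact ⟨rfl, rfl⟩
    | cons h p ih =>
      rename_i a b c
      obtain ⟨h1, h2⟩ := hφ a b h
      have hcb : F.Reachable b c := ⟨p⟩
      obtain ⟨h3, h4⟩ := ih hv hcb.symm
      refine ⟨h1.trans h3, ?_⟩
      rw [← h4]
      revert h2
      cases (φ a).2 <;> cases (φ b).2 <;> simp
  have hC : ∀ w : C, F.Reachable v w.1 := by
    intro w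
    have h1 : F.connectedComponentMk w.1 = C := w.2
    have h2 : F.connectedComponentMk v = C := hv
    exact ConnectedComponent.exact (h2.trans h1.symm)
  cases hs : (φ v).2 with
  | inl a =>
    left
    have hg : ∀ w : C, ∃ q, (φ w.1).2 = Sum.inl q := by
      intro w
      have h1 := (hk w.1 (hC w)).2
      rw [hs] at h1
      cases h2 : (φ w.1).2 with
      | inl q => exact ⟨q, rfl⟩
      | inr q => rw [h2] at h1; simp at h1
    choose g hg using hg
    refine ⟨⟨⟨g, ?_⟩, ?_⟩⟩
    · intro x y hxy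
      have h1 := (hφ x.1 y.1 hxy).2
      rw [hg x, hg y] at h1
      exact h1
    · intro x y hxy
      have h1 : g x = g y := hxy
      refine Subtype.ext (hinj (Prod.ext ?_ ?_))
      · rw [(hk x.1 (hC x)).1, (hk y.1 (hC y)).1]
      · rw [hg x, hg y, h1]
  | inr a =>
    right
    have hg : ∀ w : C, ∃ q, (φ w.1).2 = Sum.inr q := by
      intro w
      have h1 := (hk w.1 (hC w)).2
      rw [hs] at h1
      cases h2 : (φ w.1).2 with
      | inr q => exact ⟨q, rfl⟩
      | inl q => rw [h2] at h1; simp at h1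
    choose g hg using hg
    refine ⟨⟨⟨g, ?_⟩, ?_⟩⟩
    · intro x y hxy
      have h1 := (hφ x.1 y.1 hxy).2
      rw [hg x, hg y] at h1
      exact h1
    · intro x y hxy
      have h1 : g x = g y := hxy
      refine Subtype.ext (hinj (Prod.ext ?_ ?_))
      · rw [(hk x.1 (hC x)).1, (hk y.1 (hC y)).1]
      · rw [hg x, hg y, h1]

theorem spread_free [Finite V] (hF : F.IsAcyclic) (h : Spread F) : F.Free Suns := by
  rintro ⟨φ⟩
  have hsun : ∀ C : F.ConnectedComponent, ∃ n : ℕ, (n = 8 ∨ n = 4) ∧
      Nonempty (Copy C.toSimpleGraph (Sun n)) := by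
    intro C
    rcases comp_sun φ C with h1 | h1
    · exact ⟨8, Or.inl rfl, h1⟩
    · exact ⟨4, Or.inr rfl, h1⟩
  rcases h with ⟨v, hv⟩ | ⟨v, hv⟩
  · obtain ⟨n, -, ⟨ψ⟩⟩ := hsun (F.connectedComponentMk v)
    have h1 := deg_le_three ψ ⟨v, rfl⟩
    rw [comp_nb] at h1
    simp only at h1
    omega
  · obtain ⟨C, hC⟩ : ∃ C, F.connectedComponentMk v = C := ⟨_, rfl⟩
    obtain ⟨n, hn, ⟨ψ⟩⟩ := hsun C
    have hfin : Finite C := Subtype.finite
    obtain ⟨a, b, p, hp, hlen, hall⟩ := exists_path ψ hn (hF.induce _) C.connected_toSimpleGraph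
    have hinj : Function.Injective C.toSimpleGraph_hom := Subtype.val_injective
    obtain ⟨w, hw1, hw2, hw3⟩ := hv (C.toSimpleGraph_hom a) (C.toSimpleGraph_hom b)
      (p.map C.toSimpleGraph_hom) (by
        have h1 : F.connectedComponentMk a.1 = C := a.2
        exact ConnectedComponent.exact (hC.trans h1.symm)) (hp.map hinj) (by
        rw [Walk.length_map]
        exact hlen)
    apply hw3
    have hwC : F.connectedComponentMk w = C := by
      rw [← hC]
      exact ConnectedComponent.sound hw1.symm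
    rw [Walk.support_map, List.mem_map]
    refine ⟨⟨w, hwC⟩, hall _ ?_, rfl⟩
    rw [comp_nb]
    exact hw2

end

end Pool.Agent.Q231.HF
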