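import Pool.Agent.Q231.HF.Forest
import Pool.Agent.Y605.HC.Main

/-!
# Hardness for finite sets of graphs none of which is contained in a disjoint union of suns
-/

set_option autoImplicit false

namespace Pool.Agent.NPC.Q231HF

open Pool.Agent.NPC Pool.Agent.H679R2 Pool.Agent.NPC.H679 Pool.Agent.Y605.HC
  Pool.Agent.NPC.Y605HC Pool.Agent.Q231.HF SimpleGraph

/-- A tautological clause. -/
def taut : Lit ℕ × Lit ℕ × Lit ℕ := ((true, 0), (false, 0), (false, 0))

theorem taut_sat (φ : List (Lit ℕ × Lit ℕ × Lit ℕ)) : SAT3 (taut :: φ) ↔ SAT3 φ := by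
  unfold SAT3 Sat3V
  constructor
  · rintro ⟨τ, h⟩
    exact ⟨τ, fun c hc => h c (List.mem_cons_of_mem _ hc)⟩
  · rintro ⟨τ, h⟩
    refine ⟨τ, fun c hc => ?_⟩
    rcases List.mem_cons.1 hc with rfl | hc
    · cases h1 : τ 0
      · exact Or.inr (Or.inl h1)
      · exact Or.inl h1
    · exact h c hc

theorem red_contained (h : ℕ) (φ : List (Lit ℕ × Lit ℕ × Lit ℕ)) (hφ : φ ≠ []) {W : Type*}
    [Finite W] (A : SimpleGraph W) (hW : Nat.card W ≤ h) (hA : A ⊑ toGraph (red h φ)) :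
    A ⊑ Suns := by
  unfold red at hA
  rw [if_neg (by simpa using hφ)] at hA
  exact contained_of_sys (sysOf (occ φ)) h A hW
    ((isContained_congr Iso.refl (instIso (occ φ) h)).2 hA)

/-- Freeness of a finite family is decidable in polynomial time. -/
theorem fam_decidable : ∀ (m : ℕ) (W : Fin m → Type) [∀ i, Finite (W i)]
    (H : ∀ i, SimpleGraph (W i)),
    ∃ d : (List ℕ × List (ℕ × ℕ)) → Bool, Poly d ∧ ∀ I,
      (∀ i, (H i).Free (toGraph I)) ↔ d I = true := by
  intro m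
  induction m with
  | zero => exact fun W _ H => ⟨fun _ => true, Poly.const true, fun I => by simp⟩
  | succ m ih =>
    intro W _ H
    obtain ⟨d, hd, hP⟩ := ih (fun i => W i.succ) (fun i => H i.succ)
    obtain ⟨d', hd', hP'⟩ := free_decidable (H 0)
    refine ⟨fun I => d' I && d I, Poly.and hd' hd, fun I => ?_⟩
    rw [Bool.and_eq_true, ← hP, ← hP', Fin.forall_fin_succ]

theorem famdeg_decidable (m : ℕ) (W : Fin m → Type) [∀ i, Finite (W i)]
    (H : ∀ i, SimpleGraph (W i)) :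
    ∃ d : (List ℕ × List (ℕ × ℕ)) → Bool, Poly d ∧ ∀ I,
      (MaxDegreeLeThree (toGraph I) ∧ ∀ i, (H i).Free (toGraph I)) ↔ d I = true := by
  obtain ⟨d, hd, hP⟩ := fam_decidable m W H
  obtain ⟨d', hd', hP'⟩ := free_decidable star4
  refine ⟨fun I => d' I && d I, Poly.and hd' hd, fun I => ?_⟩
  have : Finite {v : ℕ // v ∈ I.1} := List.finite_toSet I.1
  rw [Bool.and_eq_true, ← hP, ← hP', star4_free]

theorem hardPr_fam (m : ℕ) (W : Fin m → Type) [∀ i, Finite (W i)] (H : ∀ i, SimpleGraph (W i))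
    (hH : ∀ i, (H i).Free Suns) :
    HardPr (fun I => MaxDegreeLeThree (toGraph I) ∧ ∀ i, (H i).Free (toGraph I)) HasHamCycle := by
  obtain ⟨h, hh1, hh⟩ : ∃ h : ℕ, 1 ≤ h ∧ ∀ i, Nat.card (W i) ≤ h := by
    refine ⟨1 + ∑ i, Nat.card (W i), by omega, fun i => ?_⟩
    have := Finset.single_le_sum (f := fun i => Nat.card (W i)) (fun _ _ => Nat.zero_le _)
      (Finset.mem_univ i)
    omega
  have hp : Poly (fun φ : List (Lit ℕ × Lit ℕ × Lit ℕ) => red h (taut :: φ)) :=
    (red_poly h).comp (Poly.cons (Poly.const taut) Poly.id)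
  refine hardI_SAT3.toHardPr.trans hp (fun φ _ => ⟨red_deg h hh1 _, fun i hc => ?_⟩) (fun φ _ => ?_)
  · exact hH i (red_contained h _ (by simp) (H i) (hh i) hc)
  · rw [← red_ham h hh1, taut_sat]

end Pool.Agent.NPC.Q231HF
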