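import Pool.Agent.H679R2.Oct.Graph
import Pool.Agent.H679R2.Oct.Free

/-!
# Small subgraphs of the graph of a system embed into a disjoint union of suns
-/

set_option autoImplicit false

namespace Pool.Agent.Q231.HF

open Pool.Agent.H679R2 SimpleGraph

/-- The `n`-sun: a cycle of length `n` (the vertices `(a, 0)`) and an infinite ray starting at
every vertex of the cycle (the vertices `(a, 0), (a, 1), ...`). -/
def Sun (n : ℕ) : SimpleGraph (ZMod n × ℕ) where
  Adj p q := (p.1 = q.1 ∧ (p.2 + 1 = q.2 ∨ q.2 + 1 = p.2)) ∨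
    (p.2 = 0 ∧ q.2 = 0 ∧ p.1 ≠ q.1 ∧ (q.1 = p.1 + 1 ∨ p.1 = q.1 + 1))
  symm := ⟨by
    rintro p q (⟨h1, h2⟩ | ⟨h1, h2, h3, h4⟩)
    · exact Or.inl ⟨h1.symm, h2.symm⟩
    · exact Or.inr ⟨h2, h1, h3.symm, h4.symm⟩⟩
  loopless := ⟨by
    rintro p (⟨h1, h2⟩ | ⟨h1, h2, h3, h4⟩)
    · omega
    · exact h3 rfl⟩

/-- The disjoint union of countably many copies of `G`. -/
def Copies {V : Type*} (G : SimpleGraph V) : SimpleGraph (ℕ × V) where
  Adj p q := p.1 = q.1 ∧ G.Adj p.2 q.2
  symm := ⟨fun _ _ h => ⟨h.1.symm, h.2.symm⟩⟩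
  loopless := ⟨fun _ h => G.loopless.irrefl _ h.2⟩

/-- The disjoint union of countably many `8`-suns and countably many `4`-suns. -/
def Suns : SimpleGraph (ℕ × (ZMod 8 × ℕ ⊕ ZMod 4 × ℕ)) := Copies (Sun 8 ⊕g Sun 4)

/-- The place of a terminal in the suns. -/
def place (t : Fin 12) (i : ℕ) : ZMod 8 × ℕ ⊕ ZMod 4 × ℕ :=
  if t.val < 8 then Sum.inl (((t.val : ℕ) : ZMod 8), i) else Sum.inr (((t.val : ℕ) : ZMod 4), i)

theorem place_inj {t t' : Fin 12} {i i' : ℕ} (h : place t i = place t' i') : t = t' ∧ i = i' := by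
  unfold place at h
  split_ifs at h with h1 h2 h2
  · simp only [Sum.inl.injEq, Prod.mk.injEq] at h
    refine ⟨?_, h.2⟩
    obtain ⟨h3, -⟩ := h
    revert h1 h2 h3
    revert t t'
    decide
  · simp only [Sum.inr.injEq, Prod.mk.injEq] at h
    refine ⟨?_, h.2⟩
    obtain ⟨h3, -⟩ := h
    revert h1 h2 h3
    revert t t'
    decide

theorem place_ray (t : Fin 12) (i : ℕ) : (Sun 8 ⊕g Sun 4).Adj (place t i) (place t (i + 1)) := by
  unfold place
  split_ifs with h
  · exact Or.inl ⟨rfl, Or.inl rfl⟩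
  · exact Or.inl ⟨rfl, Or.inl rfl⟩

theorem ring_aux : ∀ t : Fin 12, (t.val < 8 ↔ (nb1 t).val < 8) ∧
    (t.val < 8 → ((t.val : ℕ) : ZMod 8) ≠ ((nb1 t).val : ZMod 8) ∧
      (((nb1 t).val : ℕ) : ZMod 8) = ((t.val : ℕ) : ZMod 8) + 1) ∧
    (¬ t.val < 8 → ((t.val : ℕ) : ZMod 4) ≠ ((nb1 t).val : ZMod 4) ∧
      (((nb1 t).val : ℕ) : ZMod 4) = ((t.val : ℕ) : ZMod 4) + 1) := by
  decide

theorem place_ring (t : Fin 12) : (Sun 8 ⊕g Sun 4).Adj (place t 0) (place (nb1 t) 0) := by
  obtain ⟨h1, h2, h3⟩ := ring_aux t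
  unfold place
  by_cases h : t.val < 8
  · rw [if_pos h, if_pos (h1.1 h)]
    exact Or.inr ⟨rfl, rfl, (h2 h).1, Or.inl (h2 h).2⟩
  · rw [if_neg h, if_neg (fun h' => h (h1.2 h'))]
    exact Or.inr ⟨rfl, rfl, (h3 h).1, Or.inl (h3 h).2⟩

section Embed

variable {n : ℕ} (s : Sys (Fin n)) (h : ℕ)

/-- a code of a terminal -/
def code (p : Fin n × Fin 12) : ℕ := 12 * p.1.val + p.2.val

theorem code_inj {p q : Fin n × Fin 12} (h : code p = code q) : p = q := by
  obtain ⟨k, t⟩ := p
  obtain ⟨k', t'⟩ := q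
  unfold code at h
  simp only at h
  have h1 := t.isLt
  have h2 := t'.isLt
  have h3 : k.val = k'.val := by omega
  have h4 : t.val = t'.val := by omega
  exact Prod.ext (Fin.ext h3) (Fin.ext h4)

/-- The map into the suns; `c p` is the position where the path of the terminal `p` is cut. -/
def emb (c : Fin n × Fin 12 → ℕ) (x : (Fin n × Fin 12) × Fin (h + 1)) :
    ℕ × (ZMod 8 × ℕ ⊕ ZMod 4 × ℕ) :=
  if x.2.val < c x.1 then (2 * x.1.1.val, place x.1.2 x.2.val)
  else if code x.1 < code (s.M x.1) then (2 * code x.1 + 1, place 0 x.2.val)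
  else (2 * code (s.M x.1) + 1, place 0 (2 * h + 1 - x.2.val))

theorem emb_inj (c : Fin n × Fin 12 → ℕ) {x y : (Fin n × Fin 12) × Fin (h + 1)}
    (hxy : emb s h c x = emb s h c y) : x = y := by
  obtain ⟨p, i⟩ := x
  obtain ⟨q, j⟩ := y
  have hi := i.isLt
  have hj := j.isLt
  unfold emb at hxy
  simp only at hxy
  have key : ∀ p q : Fin n × Fin 12, s.M p = s.M q → p = q := fun p q hpq => by
    rw [← s.M_invol p, hpq, s.M_invol]
  split_ifs at hxy with h1 h2 h3 h4 h5 h6 h7 <;> simp only [Prod.mk.injEq] at hxy <;>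
    obtain ⟨e1, e2⟩ := hxy <;> try omega
  all_goals obtain ⟨e3, e4⟩ := place_inj e2
  · exact Prod.ext (Prod.ext (Fin.ext (by dsimp only; omega)) e3) (Fin.ext e4)
  · have e5 : p = q := code_inj (by omega)
    exact Prod.ext e5 (Fin.ext e4)
  · exfalso
    omega
  · exfalso
    omega
  · have e5 : s.M p = s.M q := code_inj (by omega)
    exact Prod.ext (key _ _ e5) (Fin.ext (by simp only; omega))

theorem emb_adj (c : Fin n × Fin 12 → ℕ) (hc : ∀ p, c p ≤ h)
    {x y : (Fin n × Fin 12) × Fin (h + 1)} (hx : x.2.val ≠ c x.1) (hy : y.2.val ≠ c y.1)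
    (hxy : (s.G h).Adj x y) : Suns.Adj (emb s h c x) (emb s h c y) := by
  obtain ⟨p, i⟩ := x
  obtain ⟨q, j⟩ := y
  have hi := i.isLt
  have hj := j.isLt
  simp only at hx hy
  have hneq : ∀ p, code p ≠ code (s.M p) := fun p hp => s.M_ne p (code_inj hp).symm
  -- edges of the paths
  have hpath : ∀ (p : Fin n × Fin 12) (i j : Fin (h + 1)), i.val ≠ c p → j.val ≠ c p →
      i.val + 1 = j.val → Suns.Adj (emb s h c (p, i)) (emb s h c (p, j)) := by
    intro p i j hx hy hij
    unfold emb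
    simp only
    by_cases h1 : j.val < c p
    · rw [if_pos (by omega), if_pos h1, ← hij]
      exact ⟨rfl, place_ray _ _⟩
    · rw [if_neg (by omega), if_neg h1]
      have hj := j.isLt
      split_ifs with h2
      · rw [← hij]
        refine ⟨rfl, ?_⟩
        dsimp only
        exact place_ray _ _
      · refine ⟨rfl, ?_⟩
        simp only
        rw [show 2 * h + 1 - i.val = (2 * h + 1 - j.val) + 1 by omega]
        exact (place_ray _ _).symm
  rcases hxy with ⟨h1, h2⟩ | ⟨h1, h2, h3⟩ | ⟨h1, h2, h3, h4⟩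
  · simp only at h1 h2
    subst h1
    rcases h2 with h2 | h2
    · exact hpath p i j hx hy h2
    · exact (hpath p j i hy hx h2).symm
  · simp only at h1 h2 h3
    subst h1
    have e1 : ¬ i.val < c p := by have := hc p; omega
    have e2 : ¬ j.val < c (s.M p) := by have := hc (s.M p); omega
    unfold emb
    simp only
    rw [if_neg e1, if_neg e2, s.M_invol]
    have e3 := hneq p
    by_cases h5 : code p < code (s.M p)
    · rw [if_pos h5, if_neg (by omega)]
      refine ⟨rfl, ?_⟩
      simp only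
      rw [h2, show 2 * h + 1 - j.val = h + 1 by omega]
      exact place_ray _ _
    · rw [if_neg h5, if_pos (by omega)]
      refine ⟨rfl, ?_⟩
      simp only
      rw [h3, show 2 * h + 1 - i.val = h + 1 by omega]
      exact (place_ray _ _).symm
  · simp only at h1 h2 h3 h4
    unfold emb
    simp only
    have hp : 0 < c p := by omega
    have hq : 0 < c q := by omega
    rw [if_pos (by omega), if_pos (by omega), h1, h2, h3]
    refine ⟨rfl, ?_⟩
    simp only
    rcases h4 with h4 | h4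
    · rw [h4]
      exact place_ring _
    · have h5 : nb1 q.2 = p.2 := by rw [h4, nb1_nb2]
      rw [← h5]
      exact (place_ring _).symm

/-- A graph with at most `h` vertices which is contained in the graph of a system is contained in
the disjoint union of the suns. -/
theorem contained_of_sys {W : Type*} [Finite W] (A : SimpleGraph W) (hW : Nat.card W ≤ h)
    (hA : A ⊑ s.G h) : A ⊑ Suns := by
  classical
  obtain ⟨φ⟩ := hA
  have : Fintype W := Fintype.ofFinite W
  -- the cuts
  have hcut : ∀ p : Fin n × Fin 12, ∃ c : Fin (h + 1), ∀ w, φ w ≠ (p, c) := by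
    intro p
    by_contra hcon
    push Not at hcon
    choose f hf using hcon
    have hinj : Function.Injective f := by
      intro a b hab
      have h1 := hf a
      rw [hab, hf b] at h1
      exact (Prod.ext_iff.1 h1).2.symm
    have h2 := Fintype.card_le_of_injective f hinj
    rw [Fintype.card_fin, ← Nat.card_eq_fintype_card] at h2
    omega
  choose c hc using hcut
  refine ⟨⟨⟨fun w => emb s h (fun p => (c p).val) (φ w), ?_⟩, ?_⟩⟩
  · intro a b hab
    have hne : ∀ w, (φ w).2.val ≠ (c (φ w).1).val := fun w hw =>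
      hc (φ w).1 w (Prod.ext rfl (Fin.ext hw))
    exact emb_adj s h _ (fun p => by have := (c p).isLt; omega) (hne a) (hne b) (φ.toHom.map_adj hab)
  · intro a b hab
    exact φ.injective (emb_inj s h (fun p => (c p).val) hab)

end Embed

end Pool.Agent.Q231.HF
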