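import Pool.Agent.Q231.HF.Sun

/-!
# Trees which are contained in a sun
-/

set_option autoImplicit false

namespace Pool.Agent.Q231.HF

open SimpleGraph

theorem sun_nb {n : ℕ} {a : ZMod n} {i : ℕ} {q : ZMod n × ℕ} (h : (Sun n).Adj (a, i) q)
    (hi : i ≠ 0) : q = (a, i + 1) ∨ q = (a, i - 1) := by
  obtain ⟨b, j⟩ := q
  rcases h with ⟨h1, h2⟩ | ⟨h1, h2, h3, h4⟩
  · simp only at h1 h2
    subst h1
    rcases h2 with h2 | h2
    · exact Or.inl (by rw [h2])
    · exact Or.inr (by rw [← h2]; rfl)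
  · exact absurd h1 hi

theorem sun_nb0 {n : ℕ} {a : ZMod n} {q : ZMod n × ℕ} (h : (Sun n).Adj (a, 0) q) :
    q = (a, 1) ∨ q = (a + 1, 0) ∨ q = (a - 1, 0) := by
  obtain ⟨b, j⟩ := q
  rcases h with ⟨h1, h2⟩ | ⟨h1, h2, h3, h4⟩
  · simp only at h1 h2
    subst h1
    rcases h2 with h2 | h2
    · exact Or.inl (by rw [← h2])
    · omega
  · simp only at h2 h4
    subst h2
    rcases h4 with h4 | h4
    · exact Or.inr (Or.inl (by rw [h4]))
    · exact Or.inr (Or.inr (by rw [h4]; simp))

section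

variable {W : Type*} {T : SimpleGraph W} {n : ℕ} (φ : Copy T (Sun n))

theorem φ_inj : Function.Injective (⇑φ) := φ.injective

/-- A vertex of degree at least `3` lies on the cycle and its neighbours cover the neighbours on the
cycle. -/
theorem deg_three (w : W) (hw : 3 ≤ (T.neighborSet w).ncard) : ∃ a : ZMod n, φ w = (a, 0) ∧
    (∃ x, T.Adj w x ∧ φ x = (a + 1, 0)) ∧ (∃ x, T.Adj w x ∧ φ x = (a - 1, 0)) := by
  obtain ⟨⟨a, i⟩, hai⟩ : ∃ q, φ w = q := ⟨_, rfl⟩
  have hcard : 3 ≤ (φ '' (T.neighborSet w)).ncard := by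
    rwa [Set.ncard_image_of_injective _ (φ_inj φ)]
  by_cases hi : i = 0
  · subst hi
    refine ⟨a, hai, ?_⟩
    have hsub : (φ '' (T.neighborSet w)) ⊆ {(a, 1), (a + 1, 0), (a - 1, 0)} := by
      rintro _ ⟨x, hx, rfl⟩
      have h1 := φ.toHom.map_adj hx
      have h2 : (Sun n).Adj (a, 0) (φ x) := by rw [← hai]; exact h1
      simpa using sun_nb0 h2
    have hle : ({(a, 1), (a + 1, 0), (a - 1, 0)} : Set (ZMod n × ℕ)).ncard ≤ 3 := by
      refine (Set.ncard_insert_le _ _).trans ?_
      have := Set.ncard_insert_le (a + 1, 0) ({(a - 1, 0)} : Set (ZMod n × ℕ))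
      rw [Set.ncard_singleton] at this
      omega
    have heq := Set.eq_of_subset_of_ncard_le hsub (hle.trans hcard) (Set.toFinite _)
    constructor
    · have h1 : ((a + 1, 0) : ZMod n × ℕ) ∈ φ '' (T.neighborSet w) := by rw [heq]; simp
      obtain ⟨x, hx, hx'⟩ := h1
      exact ⟨x, hx, hx'⟩
    · have h1 : ((a - 1, 0) : ZMod n × ℕ) ∈ φ '' (T.neighborSet w) := by rw [heq]; simp
      obtain ⟨x, hx, hx'⟩ := h1
      exact ⟨x, hx, hx'⟩
  · exfalso
    have hsub : (φ '' (T.neighborSet w)) ⊆ {(a, i + 1), (a, i - 1)} := by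
      rintro _ ⟨x, hx, rfl⟩
      have h1 := φ.toHom.map_adj hx
      have h2 : (Sun n).Adj (a, i) (φ x) := by rw [← hai]; exact h1
      simpa using sun_nb h2 hi
    have h1 := Set.ncard_le_ncard hsub (Set.toFinite _)
    have h2 := Set.ncard_insert_le (a, i + 1) ({(a, i - 1)} : Set (ZMod n × ℕ))
    rw [Set.ncard_singleton] at h2
    omega

include φ in
theorem deg_le_three (w : W) : (T.neighborSet w).ncard ≤ 3 := by
  obtain ⟨⟨a, i⟩, hai⟩ : ∃ q, φ w = q := ⟨_, rfl⟩
  rw [← Set.ncard_image_of_injective _ (φ_inj φ)]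
  have hsub : (φ '' (T.neighborSet w)) ⊆
      if i = 0 then {(a, 1), (a + 1, 0), (a - 1, 0)} else {(a, i + 1), (a, i - 1)} := by
    rintro _ ⟨x, hx, rfl⟩
    have h1 := φ.toHom.map_adj hx
    have h2 : (Sun n).Adj (a, i) (φ x) := by rw [← hai]; exact h1
    split_ifs with hi
    · subst hi
      simpa using sun_nb0 h2
    · simpa using sun_nb h2 hi
  have hfin : (if i = 0 then {(a, 1), (a + 1, 0), (a - 1, 0)} else {(a, i + 1), (a, i - 1)} :
      Set (ZMod n × ℕ)).Finite := by
    split_ifs <;> exact Set.toFinite _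
  refine (Set.ncard_le_ncard hsub hfin).trans ?_
  split_ifs
  · refine (Set.ncard_insert_le _ _).trans ?_
    have := Set.ncard_insert_le (a + 1, 0) ({(a - 1, 0)} : Set (ZMod n × ℕ))
    rw [Set.ncard_singleton] at this
    omega
  · have h2 := Set.ncard_insert_le (a, i + 1) ({(a, i - 1)} : Set (ZMod n × ℕ))
    rw [Set.ncard_singleton] at h2
    omega

/-- In a copy of an acyclic graph some edge of the cycle is missing. -/
theorem missing_edge (hn : n = 8 ∨ n = 4) (hT : T.IsAcyclic) :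
    ∃ c : ZMod n, ∀ x y, T.Adj x y → φ x = (c, 0) → φ y ≠ (c + 1, 0) := by
  by_contra hcon
  push Not at hcon
  choose x y hxy hx hy using hcon
  have hyx : ∀ c, y c = x (c + 1) := fun c => φ.injective ((hy c).trans (hx (c + 1)).symm)
  have hadj : ∀ c, T.Adj (x c) (x (c + 1)) := fun c => by rw [← hyx]; exact hxy c
  have hinj : ∀ c d, x c = x d → c = d := fun c d hcd => by
    have h1 := hx c
    rw [hcd, hx d] at h1
    exact (Prod.ext_iff.1 h1).1.symm
  have h0 : T.Adj (x (-1)) (x 0) := by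
    have := hadj (-1)
    rwa [neg_add_cancel] at this
  have hb := (isAcyclic_iff_forall_adj_isBridge.1 hT) h0
  rw [isBridge_iff] at hb
  apply hb
  -- a walk avoiding the edge
  have hreach : ∀ m : ℕ, m + 1 ≤ n → (T \ fromEdgeSet {s(x (-1), x 0)}).Reachable (x 0)
      (x ((m : ℕ) : ZMod n)) := by
    intro m
    induction m with
    | zero => intro _; simp only [Nat.cast_zero]; exact Reachable.refl _
    | succ m ih =>
      intro hm
      refine (ih (by omega)).trans (Adj.reachable ?_)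
      rw [sdiff_adj]
      have h1 := hadj ((m : ℕ) : ZMod n)
      refine ⟨by push_cast; exact h1, ?_⟩
      rw [fromEdgeSet_adj]
      rintro ⟨h2, -⟩
      rw [Set.mem_singleton_iff, Sym2.eq_iff] at h2
      have hne : ∀ m : ℕ, m + 1 < n → ((m : ℕ) : ZMod n) ≠ -1 := by
        intro m hm h3
        have h4 : (((m + 1 : ℕ)) : ZMod n) = 0 := by push_cast; rw [h3]; ring
        rw [ZMod.natCast_eq_zero_iff] at h4
        exact absurd (Nat.le_of_dvd (by omega) h4) (by omega)
      rcases h2 with ⟨h2, h3⟩ | ⟨h2, h3⟩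
      · exact hne m (by omega) (hinj _ _ h2)
      · have h5 := hinj _ _ h3
        have h6 := hinj _ _ h2
        have h7 : (2 : ZMod n) = 0 := by
          have h8 : ((m + 1 : ℕ) : ZMod n) = ((m : ℕ) : ZMod n) + 1 := by push_cast; ring
          rw [h5, h6] at h8
          have : (2 : ZMod n) = (0 + 1) - (-1) := by ring
          rw [this, ← h8]
          ring
        rcases hn with rfl | rfl
        · revert h7; decide
        · revert h7; decide
  have h1 := hreach (n - 1) (by omega)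
  have h2 : (((n - 1 : ℕ)) : ZMod n) = -1 := by
    rcases hn with rfl | rfl <;> decide
  rw [h2] at h1
  exact h1.symm

include φ in
/-- The vertices of degree at least `3` of a tree contained in the `8`-sun or the `4`-sun lie on a
path of length at most `5`. -/
theorem exists_path [Finite W] (hn : n = 8 ∨ n = 4) (hT : T.IsAcyclic) (hcon : T.Connected) :
    ∃ (a b : W) (p : T.Walk a b), p.IsPath ∧ p.length ≤ 5 ∧
      ∀ w, 3 ≤ (T.neighborSet w).ncard → w ∈ p.support := by
  classical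
  obtain ⟨c, hc⟩ := missing_edge φ hn hT
  have hNe : NeZero n := ⟨by omega⟩
  have hval : ∀ d : ZMod n, d ≠ -1 → (d + 1).val = d.val + 1 := by
    rcases hn with rfl | rfl <;> decide
  have hlt : ∀ d : ZMod n, d.val < n := fun d => ZMod.val_lt d
  obtain ⟨f, hf⟩ : ∃ f : W → ℕ, ∀ w, f w = ((φ w).1 - (c + 1)).val := ⟨_, fun _ => rfl⟩
  have hup : ∀ x y, T.Adj x y → (φ x).2 = 0 → (φ y).2 = 0 → (φ y).1 = (φ x).1 + 1 →
      f y = f x + 1 := by
    intro x y hxy hx hy h
    have h1 : (φ x).1 ≠ c := by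
      intro h2
      exact hc x y hxy (Prod.ext h2 hx) (Prod.ext (by rw [h, h2]) hy)
    rw [hf, hf, h, ← hval]
    · congr 1
      ring
    · intro h2
      apply h1
      have h3 : (φ x).1 = ((φ x).1 - (c + 1)) + (c + 1) := by ring
      rw [h3, h2]
      ring
  have hstep : ∀ x y, T.Adj x y → f x = f y ∨ ((φ x).2 = 0 ∧ (φ y).2 = 0 ∧
      (f y = f x + 1 ∨ f x = f y + 1)) := by
    intro x y hxy
    rcases φ.toHom.map_adj hxy with ⟨h1, h2⟩ | ⟨h1, h2, h3, h4⟩
    · left
      rw [hf, hf]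
      have h5 : (φ x).1 = (φ y).1 := h1
      rw [h5]
    · right
      refine ⟨h1, h2, ?_⟩
      rcases h4 with h4 | h4
      · exact Or.inl (hup x y hxy h1 h2 h4)
      · exact Or.inr (hup y x hxy.symm h2 h1 h4)
  have hinj : ∀ x y, (φ x).2 = 0 → (φ y).2 = 0 → f x = f y → x = y := by
    intro x y hx hy hxy
    rw [hf, hf] at hxy
    have h1 := ZMod.val_injective n hxy
    exact φ_inj φ (Prod.ext (sub_left_injective h1) (hx.trans hy.symm))
  have hdeg : ∀ w, 3 ≤ (T.neighborSet w).ncard → (φ w).2 = 0 ∧ 1 ≤ f w ∧ f w + 2 ≤ n := by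
    intro w hw
    obtain ⟨a, ha, ⟨x, hx, hx'⟩, ⟨y, hy, hy'⟩⟩ := deg_three φ w hw
    have h1 := hup w x hx (by rw [ha]) (by rw [hx']) (by rw [ha, hx'])
    have h2 := hup y w hy.symm (by rw [hy']) (by rw [ha]) (by rw [ha, hy']; ring)
    have h3 := hlt ((φ x).1 - (c + 1))
    rw [← hf] at h3
    exact ⟨by rw [ha], by omega, by omega⟩
  by_cases hS : ∃ w, 3 ≤ (T.neighborSet w).ncard
  swap
  · obtain ⟨a⟩ := hcon.nonempty
    exact ⟨a, a, Walk.nil, Walk.IsPath.nil, by simp, fun w hw => (hS ⟨w, hw⟩).elim⟩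
  obtain ⟨x0, hx0, hmin⟩ := Set.exists_min_image {w | 3 ≤ (T.neighborSet w).ncard} f
    (Set.toFinite _) hS
  obtain ⟨y0, hy0, hmax⟩ := Set.exists_max_image {w | 3 ≤ (T.neighborSet w).ncard} f
    (Set.toFinite _) hS
  obtain ⟨q⟩ := hcon.preconnected x0 y0
  have hcross : ∀ k, f x0 ≤ k → k < f y0 → ∃ u v, T.Adj u v ∧ (φ u).2 = 0 ∧ (φ v).2 = 0 ∧
      f u = k ∧ f v = k + 1 := by
    intro k hk1 hk2
    obtain ⟨d, -, hd1, hd2⟩ := q.exists_boundary_dart {w | f w ≤ k} hk1 (by
      simp only [Set.mem_ofPred_eq]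
      omega)
    simp only [Set.mem_ofPred_eq] at hd1 hd2
    rcases hstep d.fst d.snd d.adj with h | ⟨h1, h2, h3⟩
    · omega
    · exact ⟨d.fst, d.snd, d.adj, h1, h2, by omega, by omega⟩
  have hbuild : ∀ m, f x0 + m ≤ f y0 → ∃ u, (φ u).2 = 0 ∧ f u = f x0 + m ∧
      ∃ p : T.Walk x0 u, p.IsPath ∧ p.length = m ∧ (∀ z ∈ p.support, f z ≤ f x0 + m) ∧
        ∀ w, (φ w).2 = 0 → f x0 ≤ f w → f w ≤ f x0 + m → w ∈ p.support := by
    intro m
    induction m with
    | zero =>
      intro _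
      refine ⟨x0, (hdeg x0 hx0).1, rfl, Walk.nil, Walk.IsPath.nil, rfl, ?_, ?_⟩
      · intro z hz
        simp only [Walk.support_nil, List.mem_singleton] at hz
        rw [hz]
        exact le_rfl
      · intro w h1 h2 h3
        rw [hinj w x0 h1 (hdeg x0 hx0).1 (by omega)]
        simp
    | succ m ih =>
      intro hm
      obtain ⟨u, hu1, hu2, p, hp, hlen, hsup, hall⟩ := ih (by omega)
      obtain ⟨u', v, huv, h1, h2, h3, h4⟩ := hcross (f x0 + m) (by omega) (by omega)
      have h5 : u' = u := hinj _ _ h1 hu1 (by omega)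
      subst h5
      have h6 : v ∉ p.support := fun hv => by
        have := hsup v hv
        omega
      refine ⟨v, h2, by omega, p.concat huv, hp.concat h6 huv, ?_, ?_, ?_⟩
      · rw [Walk.length_concat, hlen]
      · intro z hz
        rw [Walk.support_concat, List.mem_append] at hz
        rcases hz with hz | hz
        · have := hsup z hz
          omega
        · simp only [List.mem_singleton] at hz
          rw [hz]
          omega
      · intro w hw1 hw2 hw3
        rw [Walk.support_concat, List.mem_append]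
        by_cases h7 : f w ≤ f x0 + m
        · exact Or.inl (hall w hw1 hw2 h7)
        · right
          rw [hinj w v hw1 h2 (by omega)]
          simp
  have h1 := hmin y0 hy0
  obtain ⟨u, -, -, p, hp, hlen, -, hall⟩ := hbuild (f y0 - f x0) (by omega)
  have h2 := hdeg x0 hx0
  have h3 := hdeg y0 hy0
  refine ⟨x0, u, p, hp, by omega, fun w hw => ?_⟩
  have h4 := hmin w hw
  have h5 := hmax w hw
  exact hall w (hdeg w hw).1 h4 (by omega)

end

end Pool.Agent.Q231.HF
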